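import Mathlib

/-!
# Two disjoint edges of a planar polygon with at least four vertices (project ND, brick G)
-/

set_option autoImplicit false
set_option linter.all false

namespace Pool.Agent.K3h73.ND

/-- an affine function on the plane -/
noncomputable def aff (t : ℝ) (u z : ℂ) : ℝ := t + (starRingEnd ℂ u * z).re

theorem aff_eq (t : ℝ) (u z : ℂ) : aff t u z = t + (u.re * z.re + u.im * z.im) := by
  unfold aff
  rw [Complex.mul_re, Complex.conj_re, Complex.conj_im]
  ring

theorem hull3 {p q r z : ℂ} {α β γ : ℝ} (hα : 0 ≤ α) (hβ : 0 ≤ β) (hγ : 0 ≤ γ)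
    (h1 : α + β + γ = 1) (hx : z.re = α * p.re + β * q.re + γ * r.re)
    (hy : z.im = α * p.im + β * q.im + γ * r.im) : z ∈ convexHull ℝ {p, q, r} := by
  have hC := convex_convexHull ℝ ({p, q, r} : Set ℂ)
  have hp : p ∈ convexHull ℝ ({p, q, r} : Set ℂ) := subset_convexHull ℝ _ (by simp)
  have hq : q ∈ convexHull ℝ ({p, q, r} : Set ℂ) := subset_convexHull ℝ _ (by simp)
  have hr : r ∈ convexHull ℝ ({p, q, r} : Set ℂ) := subset_convexHull ℝ _ (by simp)
  have h2 := hC.sum_mem (t := (Finset.univ : Finset (Fin 3))) (w := ![α, β, γ]) (z := ![p, q, r])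
    (by
      intro i _
      fin_cases i
      · exact hα
      · exact hβ
      · exact hγ)
    (by simp [Fin.sum_univ_three, h1])
    (by
      intro i _
      fin_cases i
      · exact hp
      · exact hq
      · exact hr)
  have h3 : z = ∑ i : Fin 3, (![α, β, γ] : Fin 3 → ℝ) i • (![p, q, r] : Fin 3 → ℂ) i := by
    apply Complex.ext
    · simp [Fin.sum_univ_three, hx]
    · simp [Fin.sum_univ_three, hy]
  rw [h3]
  exact h2

theorem quadrant {ι : Type} (I : Finset ι) (hI : I.Nonempty) (u v : ι → ℝ) :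
    (∃ r ∈ I, ∀ i ∈ I, u r ≤ u i ∧ v r ≤ v i) ∨
    ∃ (x y : ℝ) (b b' : ι), 0 < x ∧ 0 < y ∧ b ∈ I ∧ b' ∈ I ∧ (u b, v b) ≠ (u b', v b') ∧
      x * u b + y * v b = x * u b' + y * v b' ∧ ∀ i ∈ I, x * u b + y * v b ≤ x * u i + y * v i := by
  classical
  obtain ⟨r0, hr0, hmin⟩ := Finset.exists_min_image I u hI
  obtain ⟨r, hr, hminv⟩ := Finset.exists_min_image (I.filter fun i => u i = u r0) v
    ⟨r0, Finset.mem_filter.2 ⟨hr0, rfl⟩⟩
  rw [Finset.mem_filter] at hr
  have hu : ∀ i ∈ I, u r ≤ u i := fun i hi => by rw [hr.2]; exact hmin i hi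
  have hv : ∀ i ∈ I, u i = u r → v r ≤ v i := fun i hi h =>
    hminv i (Finset.mem_filter.2 ⟨hi, by rw [h, hr.2]⟩)
  by_cases hJ : (I.filter fun i => v i < v r).Nonempty
  · right
    obtain ⟨b, hb, hmax⟩ := Finset.exists_max_image (I.filter fun i => v i < v r)
      (fun i => (v r - v i) / (u i - u r)) hJ
    rw [Finset.mem_filter] at hb
    have hpos : ∀ i ∈ I, v i < v r → 0 < u i - u r := by
      intro i hi h
      rcases (hu i hi).lt_or_eq with h1 | h1
      · linarith
      · exact absurd (hv i hi h1.symm) (not_le.2 h)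
    have hb1 := hpos b hb.1 hb.2
    have hx : 0 < (v r - v b) / (u b - u r) := div_pos (by linarith [hb.2]) hb1
    refine ⟨(v r - v b) / (u b - u r), 1, r, b, hx, one_pos, hr.1, hb.1, ?_, ?_, ?_⟩
    · intro h
      have := congrArg Prod.snd h
      simp only at this
      linarith [hb.2]
    · have h1 : (v r - v b) / (u b - u r) * (u b - u r) = v r - v b :=
        div_mul_cancel₀ _ hb1.ne'
      linarith
    · intro i hi
      by_cases h : v i < v r
      · have h1 := hpos i hi h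
        have h2 := hmax i (Finset.mem_filter.2 ⟨hi, h⟩)
        have h3 : (v r - v i) / (u i - u r) * (u i - u r) = v r - v i :=
          div_mul_cancel₀ _ h1.ne'
        have h4 := mul_le_mul_of_nonneg_right h2 h1.le
        beta_reduce at h4
        linarith
      · push Not at h
        have h2 := mul_le_mul_of_nonneg_left (hu i hi) hx.le
        linarith
  · left
    refine ⟨r, hr.1, fun i hi => ⟨hu i hi, ?_⟩⟩
    by_contra h
    push Not at h
    exact hJ ⟨i, Finset.mem_filter.2 ⟨hi, h⟩⟩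

theorem geom {n : ℕ} (hn : 0 < n) (lam : Fin n → ℂ)
    (h : ¬ ∃ a b c : Fin n, ∀ i, lam i ∈ convexHull ℝ {lam a, lam b, lam c}) :
    ∃ (t1 t3 : ℝ) (u1 u3 : ℂ) (a a' b b' : Fin n), (∀ i, 0 ≤ aff t1 u1 (lam i)) ∧
      (∀ i, 0 ≤ aff t3 u3 (lam i)) ∧ aff t1 u1 (lam a) = 0 ∧ aff t1 u1 (lam a') = 0 ∧
      aff t3 u3 (lam b) = 0 ∧ aff t3 u3 (lam b') = 0 ∧ lam a ≠ lam a' ∧ lam b ≠ lam b' ∧
      ∀ i, 0 < aff t1 u1 (lam i) ∨ 0 < aff t3 u3 (lam i) := by
  classical
  haveI : Nonempty (Fin n) := ⟨⟨0, hn⟩⟩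
  obtain ⟨X, hX⟩ : ∃ X : Fin n → ℝ, ∀ i, X i = (lam i).re := ⟨fun i => (lam i).re, fun i => rfl⟩
  obtain ⟨Y, hY⟩ : ∃ Y : Fin n → ℝ, ∀ i, Y i = (lam i).im := ⟨fun i => (lam i).im, fun i => rfl⟩
  -- the first vertex
  obtain ⟨a0, -, hmin⟩ := Finset.exists_min_image Finset.univ X Finset.univ_nonempty
  obtain ⟨a, ha, hminv⟩ := Finset.exists_min_image (Finset.univ.filter fun i => X i = X a0) Y
    ⟨a0, Finset.mem_filter.2 ⟨Finset.mem_univ _, rfl⟩⟩
  rw [Finset.mem_filter] at ha
  have hXa : ∀ i, X a ≤ X i := fun i => by rw [ha.2]; exact hmin i (Finset.mem_univ _)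
  have hYa : ∀ i, X i = X a → Y a ≤ Y i := fun i hi =>
    hminv i (Finset.mem_filter.2 ⟨Finset.mem_univ _, by rw [hi, ha.2]⟩)
  by_cases hall : ∀ i, X i = X a
  · exfalso
    obtain ⟨b, -, hmax⟩ := Finset.exists_max_image Finset.univ Y Finset.univ_nonempty
    apply h
    refine ⟨a, b, b, fun i => ?_⟩
    have h1 := hYa i (hall i)
    have h2 := hmax i (Finset.mem_univ _)
    by_cases hY0 : Y b = Y a
    · refine hull3 (α := 1) (β := 0) (γ := 0) (by norm_num) le_rfl le_rfl (by norm_num) ?_ ?_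
      · rw [← hX, ← hX, ← hX, hall i]
        ring
      · rw [← hY, ← hY, ← hY]
        linarith
    · have h3 : 0 < Y b - Y a := by
        rcases (hYa b (hall b)).lt_or_eq with h4 | h4
        · linarith
        · exact absurd h4.symm hY0
      have h4 : (Y i - Y a) / (Y b - Y a) * (Y b - Y a) = Y i - Y a := div_mul_cancel₀ _ h3.ne'
      refine hull3 (α := 1 - (Y i - Y a) / (Y b - Y a)) (β := (Y i - Y a) / (Y b - Y a)) (γ := 0)
        ?_ (div_nonneg (by linarith) h3.le) le_rfl (by ring) ?_ ?_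
      · rw [sub_nonneg, div_le_one h3]
        linarith
      · rw [← hX, ← hX, ← hX, hall i, hall b]
        ring
      · rw [← hY, ← hY, ← hY]
        linarith
  push Not at hall
  obtain ⟨i0, hi0⟩ := hall
  have hJ : (Finset.univ.filter fun i => X a < X i).Nonempty :=
    ⟨i0, Finset.mem_filter.2 ⟨Finset.mem_univ _, lt_of_le_of_ne (hXa i0) (Ne.symm hi0)⟩⟩
  obtain ⟨c, hc, hslope⟩ := Finset.exists_min_image (Finset.univ.filter fun i => X a < X i)
    (fun i => (Y i - Y a) / (X i - X a)) hJ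
  rw [Finset.mem_filter] at hc
  obtain ⟨s, hs⟩ : ∃ s : ℝ, s = (Y c - Y a) / (X c - X a) := ⟨_, rfl⟩
  obtain ⟨L, hL⟩ : ∃ L : Fin n → ℝ, ∀ i, L i = (Y i - Y a) - s * (X i - X a) :=
    ⟨_, fun i => rfl⟩
  have hL0 : ∀ i, 0 ≤ L i := by
    intro i
    rw [hL]
    rcases (hXa i).lt_or_eq with h1 | h1
    · have h2 := hslope i (Finset.mem_filter.2 ⟨Finset.mem_univ _, h1⟩)
      beta_reduce at h2
      rw [← hs] at h2
      have h3 : 0 < X i - X a := by linarith
      have h4 := mul_le_mul_of_nonneg_right h2 h3.le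
      rw [div_mul_cancel₀ _ h3.ne'] at h4
      linarith
    · have h2 := hYa i h1.symm
      rw [← h1]
      linarith
  have hLc : L c = 0 := by
    have h1 : X c - X a ≠ 0 := by linarith [hc.2]
    rw [hL, hs, div_mul_cancel₀ _ h1]
    ring
  obtain ⟨a', ha', hmaxX⟩ := Finset.exists_max_image (Finset.univ.filter fun i => L i = 0) X
    ⟨c, Finset.mem_filter.2 ⟨Finset.mem_univ _, hLc⟩⟩
  rw [Finset.mem_filter] at ha'
  have hcX := hmaxX c (Finset.mem_filter.2 ⟨Finset.mem_univ _, hLc⟩)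
  obtain ⟨D, hD⟩ : ∃ D : ℝ, D = X a' - X a := ⟨_, rfl⟩
  have hD0 : 0 < D := by rw [hD]; linarith [hc.2]
  obtain ⟨Bf, hB⟩ : ∃ Bf : Fin n → ℝ, ∀ i, Bf i = (X i - X a) / D := ⟨_, fun i => rfl⟩
  have hBD : ∀ i, Bf i * D = X i - X a := fun i => by rw [hB, div_mul_cancel₀ _ hD0.ne']
  have hB0 : ∀ i, 0 ≤ Bf i := fun i => by
    rw [hB]
    exact div_nonneg (by linarith [hXa i]) hD0.le
  have hB1 : ∀ i, L i = 0 → Bf i ≤ 1 := by
    intro i hi
    rw [hB, div_le_one hD0, hD]
    have := hmaxX i (Finset.mem_filter.2 ⟨Finset.mem_univ _, hi⟩)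
    linarith
  have hYi : ∀ i, Y i = Y a + s * (Bf i * D) + L i := fun i => by
    rw [hBD, hL]
    ring
  have hXi : ∀ i, X i = X a + Bf i * D := fun i => by rw [hBD]; ring
  have hBa' : Bf a' = 1 := by rw [hB, ← hD, div_self hD0.ne']
  have hLa : L a = 0 := by rw [hL]; ring
  have hseg : ∀ i (r : Fin n), L i = 0 → lam i ∈ convexHull ℝ {lam a, lam a', lam r} := by
    intro i r hi
    refine hull3 (α := 1 - Bf i) (β := Bf i) (γ := 0) (by linarith [hB1 i hi]) (hB0 i) le_rfl
      (by ring) ?_ ?_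
    · rw [← hX, ← hX, ← hX, ← hX, hXi i, hXi a', hBa']
      ring
    · rw [← hY, ← hY, ← hY, ← hY, hYi i, hYi a', hBa', hi, ha'.2]
      ring
  have hI : (Finset.univ.filter fun i => 0 < L i).Nonempty := by
    by_contra hne
    apply h
    refine ⟨a, a', a', fun i => hseg i a' ?_⟩
    by_contra hi
    exact hne ⟨i, Finset.mem_filter.2 ⟨Finset.mem_univ _, lt_of_le_of_ne (hL0 i) (Ne.symm hi)⟩⟩
  rcases quadrant (Finset.univ.filter fun i => 0 < L i) hI (fun i => (1 - Bf i) / L i)
    (fun i => Bf i / L i) with ⟨r, hr, hq⟩ | ⟨x, y, b, b', hx, hy, hb, hb', hne, heq, hle⟩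
  · exfalso
    apply h
    rw [Finset.mem_filter] at hr
    refine ⟨a, a', r, fun i => ?_⟩
    by_cases hi : L i = 0
    · exact hseg i r hi
    · have hi' : 0 < L i := lt_of_le_of_ne (hL0 i) (Ne.symm hi)
      obtain ⟨q1, q2⟩ := hq i (Finset.mem_filter.2 ⟨Finset.mem_univ _, hi'⟩)
      beta_reduce at q1 q2
      have hw : 0 ≤ L i / L r := div_nonneg hi'.le hr.2.le
      have hwL : L i / L r * L r = L i := div_mul_cancel₀ _ hr.2.ne'
      rw [div_le_div_iff₀ hr.2 hi'] at q1 q2
      have q1' : L i / L r * (1 - Bf r) ≤ 1 - Bf i := by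
        rw [div_mul_eq_mul_div, div_le_iff₀ hr.2]
        linarith
      have q2' : L i / L r * Bf r ≤ Bf i := by
        rw [div_mul_eq_mul_div, div_le_iff₀ hr.2]
        linarith
      refine hull3 (α := (1 - Bf i) - L i / L r * (1 - Bf r)) (β := Bf i - L i / L r * Bf r)
        (γ := L i / L r) (by linarith) (by linarith) hw (by ring) ?_ ?_
      · rw [← hX, ← hX, ← hX, ← hX, hXi i, hXi a', hBa', hXi r]
        ring
      · rw [← hY, ← hY, ← hY, ← hY, hYi i, hYi a', hBa', hYi r, ha'.2]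
        have : L i / L r * (Y a + s * (Bf r * D) + L r) =
          L i / L r * (Y a + s * (Bf r * D)) + L i := by rw [mul_add, hwL]
        rw [this]
        ring
  · rw [Finset.mem_filter] at hb hb'
    obtain ⟨k, hk⟩ : ∃ k : ℝ, k = x * ((1 - Bf b) / L b) + y * (Bf b / L b) := ⟨_, rfl⟩
    have e1 : ∀ i, aff (-Y a + s * X a) ⟨-s, 1⟩ (lam i) = L i := by
      intro i
      rw [aff_eq, hL, ← hX i, ← hY i]
      show -Y a + s * X a + (-s * X i + 1 * Y i) = _
      ring
    have e3 : ∀ i, aff (x - (y - x) * X a / D + k * Y a - k * s * X a)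
        ⟨(y - x) / D + k * s, -k⟩ (lam i) = x * (1 - Bf i) + y * Bf i - k * L i := by
      intro i
      rw [aff_eq, hL, hB, ← hX i, ← hY i]
      show x - (y - x) * X a / D + k * Y a - k * s * X a +
        (((y - x) / D + k * s) * X i + (-k) * Y i) = _
      field_simp
      ring
    have e4 : ∀ i, 0 < L i → x * (1 - Bf i) + y * Bf i - k * L i =
        L i * (x * ((1 - Bf i) / L i) + y * (Bf i / L i) - k) := by
      intro i hi
      field_simp
    refine ⟨-Y a + s * X a, x - (y - x) * X a / D + k * Y a - k * s * X a, ⟨-s, 1⟩,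
      ⟨(y - x) / D + k * s, -k⟩, a, a', b, b', fun i => (e1 i).symm ▸ hL0 i, fun i => ?_,
      ?_, ?_, ?_, ?_, ?_, ?_, fun i => ?_⟩
    · rw [e3]
      rcases (hL0 i).lt_or_eq with hi | hi
      · rw [e4 i hi]
        have := hle i (Finset.mem_filter.2 ⟨Finset.mem_univ _, hi⟩)
        beta_reduce at this
        rw [← hk] at this
        exact mul_nonneg hi.le (by linarith)
      · rw [← hi, mul_zero, sub_zero]
        have h1 := hB1 i hi.symm
        have h2 := hB0 i
        have h3 := mul_nonneg hx.le (sub_nonneg.2 h1)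
        have h4 := mul_nonneg hy.le h2
        linarith
    · rw [e1, hLa]
    · rw [e1, ha'.2]
    · rw [e3, e4 b hb.2, ← hk, sub_self, mul_zero]
    · rw [e3, e4 b' hb'.2]
      beta_reduce at heq
      rw [← heq, ← hk, sub_self, mul_zero]
    · intro he
      have h1 : X a = X a' := by rw [hX, hX, he]
      rw [hD, h1] at hD0
      linarith
    · intro he
      apply hne
      have h1 : X b = X b' := by rw [hX, hX, he]
      have h2 : Y b = Y b' := by rw [hY, hY, he]
      have h3 : Bf b = Bf b' := by rw [hB, hB, h1]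
      have h4 : L b = L b' := by rw [hL, hL, h1, h2]
      rw [h3, h4]
    · rcases (hL0 i).lt_or_eq with hi | hi
      · left
        rw [e1]
        exact hi
      · right
        rw [e3, ← hi, mul_zero, sub_zero]
        have h1 := hB1 i hi.symm
        have h2 := hB0 i
        rcases h2.lt_or_eq with h3 | h3
        · have h4 := mul_nonneg hx.le (sub_nonneg.2 h1)
          have h5 := mul_pos hy h3
          linarith
        · rw [← h3]
          linarith

end Pool.Agent.K3h73.ND
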